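import Mathlib

set_option autoImplicit false

namespace Pool.Agent.Results.MP_25f285_al.Counter

open Filter Topology

def P (n m : ℕ) : Prop := ∃ k, 2 * k * (k + 1) * (k + 2) ≤ m ∧ (k + 2) * n ≤ (k + 1) * m

noncomputable def f (n : ℕ) : ℕ := sInf {m | P n m}

lemma f_mem (n : ℕ) : P n (f n) := Nat.sInf_mem (s := {m | P n m}) ⟨2 * n, 0, by simp, by simp⟩

lemma f_le {n m : ℕ} (h : P n m) : f n ≤ m := Nat.sInf_le h

lemma le_f (n : ℕ) : n ≤ f n := by obtain ⟨k, -, h⟩ := f_mem n; nlinarith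

lemma slope {j k n m : ℕ} (h : j ≤ k) (h' : (j + 2) * n ≤ (j + 1) * m) : (k + 2) * n ≤ (k + 1) * m := by
  have : n ≤ m := by nlinarith
  obtain ⟨t, rfl⟩ := Nat.exists_eq_add_of_le h
  nlinarith

lemma f_add {a b c : ℕ} (h : c ≤ a + b) : f c ≤ f a + f b := by
  obtain ⟨j, h1, h2⟩ := f_mem a
  obtain ⟨k, h3, h4⟩ := f_mem b
  rcases le_total j k with e | e
  · exact f_le ⟨k, by omega, by nlinarith [slope e h2]⟩
  · exact f_le ⟨j, by omega, by nlinarith [slope e h4]⟩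

lemma plat (k n : ℕ) (h1 : 2 * (k + 1) ^ 2 * (k + 3) ≤ n) (h2 : n ≤ 2 * (k + 1) * (k + 2) ^ 2) :
    f n = 2 * (k + 1) * (k + 2) * (k + 3) := by
  refine le_antisymm (f_le ⟨k + 1, le_rfl, by nlinarith⟩) (not_lt.1 fun h => ?_)
  obtain ⟨j, h3, h4⟩ := f_mem n
  have : j ≤ k := by
    by_contra! e
    exact (h3.trans_lt h).not_ge (Nat.mul_le_mul (Nat.mul_le_mul (by omega) (by omega)) (by omega))
  nlinarith [slope this h4]

theorem result : ∃ d : ℤ → ℤ → ℤ, (∀ x y, d x y = 0 ↔ x = y) ∧ (∀ x y, d x y = d y x) ∧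
    (∀ x y z, d x z ≤ d x y + d y z) ∧ (∀ g x y, d (g + x) (g + y) = d x y) ∧ (∀ x r, {y | d x y ≤ r}.Finite) ∧
    (∀ x y, |x - y| ≤ d x y ∧ d x y ≤ 2 * |x - y|) ∧
    ∃ x : ℕ → ℤ, Tendsto x atTop cofinite ∧ ∀ y, Tendsto (fun n => (d (x n) y - d (x n) 0 : ℝ)) atTop (𝓝 0) := by
  have b : ∀ x y : ℤ, |x - y| ≤ f (x - y).natAbs ∧ (f (x - y).natAbs : ℤ) ≤ 2 * |x - y| := fun x y => by
    have := le_f (x - y).natAbs
    have := f_le (n := (x - y).natAbs) ⟨0, Nat.zero_le (2 * (x - y).natAbs), by simp⟩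
    rw [← Int.natCast_natAbs]; omega
  refine ⟨fun x y => f (x - y).natAbs, fun x y => ?_, fun x y => by simp only; rw [← Int.natAbs_neg, neg_sub],
    fun x y z => by simp only; exact_mod_cast f_add (by omega), fun g x y => by simp only [add_sub_add_left_eq_sub],
    fun x r => (Set.finite_Icc (x - r) (x + r)).subset fun y h => ?_, b,
    fun k => (2 * (k + 1) ^ 2 * (k + 3) + (k + 1) : ℕ), ?_, fun y => tendsto_const_nhds.congr' ?_⟩
  · have := b x y
    exact ⟨fun h => by simp only at h; rw [h] at this; exact sub_eq_zero.1 (abs_nonpos_iff.1 this.1),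
      fun h => by subst h; simp only; rw [sub_self] at this ⊢; simpa using this.2⟩
  · have := abs_le.1 ((b x y).1.trans h)
    exact ⟨by omega, by omega⟩
  · rw [← Nat.cofinite_eq_atTop]
    refine (Nat.cast_injective.comp (StrictMono.injective fun a b h => ?_)).tendsto_cofinite
    exact Nat.add_lt_add_of_le_of_lt (by gcongr) (by omega)
  · filter_upwards [eventually_ge_atTop y.natAbs] with k hk
    have e : 2 * (k + 1) * (k + 2) ^ 2 = 2 * (k + 1) ^ 2 * (k + 3) + 2 * (k + 1) := by ring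
    rw [plat k _ (by omega) (by omega), plat k _ (by omega) (by omega), sub_self]

end Pool.Agent.Results.MP_25f285_al.Counter
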